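import Mathlib

/-! Project H814-BSD, task Avg (helper41): logarithmic averages. -/

set_option autoImplicit false

open Filter Topology Finset

namespace Pool.Agent.H41R3.BSDAvg

lemma sqrt_step (n : ℕ) : 1 / Real.sqrt ((n : ℝ) + 1) ≤ 2 * (Real.sqrt ((n : ℝ) + 1) - Real.sqrt n) := by
  have hn : (0 : ℝ) ≤ n := Nat.cast_nonneg n
  have hv : 0 < Real.sqrt ((n : ℝ) + 1) := Real.sqrt_pos.mpr (by linarith)
  have h1 : Real.sqrt ((n : ℝ) + 1) ^ 2 = n + 1 := Real.sq_sqrt (by linarith)
  have h2 : Real.sqrt (n : ℝ) ^ 2 = n := Real.sq_sqrt hn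
  rw [div_le_iff₀ hv]
  nlinarith [sq_nonneg (Real.sqrt ((n : ℝ) + 1) - Real.sqrt n)]

lemma log_step (n : ℕ) (hn : 1 ≤ n) :
    |1 / ((n : ℝ) + 1) - (Real.log ((n : ℝ) + 1) - Real.log n)| ≤ 1 / (n * ((n : ℝ) + 1)) := by
  have hn0 : (0 : ℝ) < n := by exact_mod_cast hn
  have e : Real.log ((n : ℝ) + 1) - Real.log n = Real.log (((n : ℝ) + 1) / n) :=
    (Real.log_div (by positivity) (by positivity)).symm
  rw [e]
  have h1 : Real.log (((n : ℝ) + 1) / n) ≤ ((n : ℝ) + 1) / n - 1 :=
    Real.log_le_sub_one_of_pos (by positivity)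
  have h2 : 1 - (((n : ℝ) + 1) / n)⁻¹ ≤ Real.log (((n : ℝ) + 1) / n) :=
    Real.one_sub_inv_le_log_of_pos (by positivity)
  have e1 : ((n : ℝ) + 1) / n - 1 = 1 / n := by field_simp; ring
  have e2 : 1 - (((n : ℝ) + 1) / n)⁻¹ = 1 / ((n : ℝ) + 1) := by field_simp; ring
  have e3 : 1 / (n : ℝ) - 1 / ((n : ℝ) + 1) = 1 / (n * ((n : ℝ) + 1)) := by field_simp; ring
  rw [e1] at h1
  rw [e2] at h2
  rw [abs_le]
  constructor
  · linarith
  · have : (0 : ℝ) ≤ 1 / (n * ((n : ℝ) + 1)) := by positivity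
    linarith

theorem avg (a : ℕ → ℝ) (K h : ℝ) (_h0 : a 0 = 0)
    (ha : ∀ n : ℕ, 1 ≤ n → |a n| ≤ K * (n : ℝ) ^ (-(1 / 2) : ℝ))
    (hlim : Tendsto (fun U : ℝ => ∑ k ∈ Finset.Icc 1 ⌊Real.exp U⌋₊, a k * (1 - Real.log k / U))
      atTop (𝓝 h)) :
    Tendsto (fun n : ℕ => (∑ j ∈ Finset.Icc 2 n, (∑ k ∈ Finset.Icc 1 j, a k) / j) / Real.log n)
      atTop (𝓝 h) := by
  have ha' : ∀ n : ℕ, 1 ≤ n → |a n| ≤ K * (1 / Real.sqrt n) := by
    intro n hn
    have h1 := ha n hn
    rw [Real.rpow_neg (Nat.cast_nonneg n), ← Real.sqrt_eq_rpow, ← one_div] at h1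
    exact h1
  have hK : 0 ≤ K := by
    have h1 := ha' 1 le_rfl
    simp at h1
    exact (abs_nonneg _).trans h1
  set A : ℕ → ℝ := fun n => ∑ k ∈ Finset.Icc 1 n, a k with hA
  set T : ℕ → ℝ := fun n => ∑ j ∈ Finset.Icc 2 n, A j / j with hT
  set R : ℕ → ℝ := fun n => ∑ k ∈ Finset.Icc 1 n, a k * (Real.log n - Real.log k) with hR
  have hAb : ∀ n : ℕ, |A n| ≤ 2 * K * Real.sqrt n := by
    intro n
    induction n with
    | zero => simp [hA]
    | succ n ih =>
      have e : A (n + 1) = A n + a (n + 1) := by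
        simp only [hA]
        exact Finset.sum_Icc_succ_top (by omega) _
      rw [e]
      have h1 := ha' (n + 1) (by omega)
      push_cast at h1 ⊢
      have h2 := sqrt_step n
      have h3 : K * (1 / Real.sqrt ((n : ℝ) + 1)) ≤
          K * (2 * (Real.sqrt ((n : ℝ) + 1) - Real.sqrt n)) := mul_le_mul_of_nonneg_left h2 hK
      have h4 := abs_add_le (A n) (a (n + 1))
      linarith
  -- increments
  have hinc : ∀ n : ℕ, 1 ≤ n → |(T (n + 1) - R (n + 1)) - (T n - R n)| ≤
      3 * K * (1 / ((n : ℝ) * Real.sqrt n)) := by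
    intro n hn
    have hn0 : (0 : ℝ) < n := by exact_mod_cast hn
    have hs0 : 0 < Real.sqrt n := Real.sqrt_pos.mpr hn0
    have eT : T (n + 1) = T n + A (n + 1) / ((n : ℝ) + 1) := by
      simp only [hT]
      rw [Finset.sum_Icc_succ_top (by omega)]
      push_cast
      rfl
    have eA : A (n + 1) = A n + a (n + 1) := by
      simp only [hA]
      exact Finset.sum_Icc_succ_top (by omega) _
    have eR : R (n + 1) = R n + A n * (Real.log ((n : ℝ) + 1) - Real.log n) := by
      simp only [hR, hA]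
      rw [Finset.sum_Icc_succ_top (by omega), sub_self, mul_zero, add_zero, Finset.sum_mul,
        ← Finset.sum_add_distrib]
      refine Finset.sum_congr rfl fun k _ => ?_
      push_cast
      ring
    have e : (T (n + 1) - R (n + 1)) - (T n - R n) =
        a (n + 1) / ((n : ℝ) + 1) +
          A n * (1 / ((n : ℝ) + 1) - (Real.log ((n : ℝ) + 1) - Real.log n)) := by
      rw [eT, eR, eA]
      ring
    rw [e]
    have b1 : |a (n + 1) / ((n : ℝ) + 1)| ≤ K * (1 / ((n : ℝ) * Real.sqrt n)) := by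
      rw [abs_div, abs_of_pos (show (0 : ℝ) < n + 1 by positivity), div_le_iff₀ (by positivity)]
      have h1 := ha' (n + 1) (by omega)
      push_cast at h1
      refine h1.trans ?_
      rw [mul_assoc]
      refine mul_le_mul_of_nonneg_left ?_ hK
      have h2 : Real.sqrt n ≤ Real.sqrt ((n : ℝ) + 1) := Real.sqrt_le_sqrt (by linarith)
      calc 1 / Real.sqrt ((n : ℝ) + 1) ≤ 1 / Real.sqrt n := one_div_le_one_div_of_le hs0 h2
        _ = 1 / ((n : ℝ) * Real.sqrt n) * n := by field_simp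
        _ ≤ 1 / ((n : ℝ) * Real.sqrt n) * ((n : ℝ) + 1) := by gcongr; linarith
    have b2 : |A n * (1 / ((n : ℝ) + 1) - (Real.log ((n : ℝ) + 1) - Real.log n))| ≤
        2 * K * (1 / ((n : ℝ) * Real.sqrt n)) := by
      rw [abs_mul]
      calc |A n| * |1 / ((n : ℝ) + 1) - (Real.log ((n : ℝ) + 1) - Real.log n)|
          ≤ (2 * K * Real.sqrt n) * (1 / (n * ((n : ℝ) + 1))) :=
            mul_le_mul (hAb n) (log_step n hn) (abs_nonneg _) (by positivity)
        _ ≤ (2 * K * Real.sqrt n) * (1 / (n * n)) := by gcongr; linarith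
        _ = 2 * K * (1 / ((n : ℝ) * Real.sqrt n)) := by
            have h1 : Real.sqrt n * Real.sqrt n = n := Real.mul_self_sqrt hn0.le
            have h2 : Real.sqrt n * (1 / ((n : ℝ) * n)) = 1 / ((n : ℝ) * Real.sqrt n) := by
              rw [mul_one_div, div_eq_div_iff (by positivity) (by positivity)]
              calc Real.sqrt n * ((n : ℝ) * Real.sqrt n) = n * (Real.sqrt n * Real.sqrt n) := by ring
                _ = 1 * (n * n) := by rw [h1]; ring
            rw [mul_assoc, h2]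
    refine (abs_add_le _ _).trans ?_
    linarith
  have hsum : Summable (fun n : ℕ => 3 * K * (1 / ((n : ℝ) * Real.sqrt n))) := by
    refine Summable.mul_left _ ?_
    have h1 : Summable (fun n : ℕ => ((n : ℝ) ^ (3 / 2 : ℝ))⁻¹) :=
      Real.summable_nat_rpow_inv.mpr (by norm_num)
    refine h1.congr fun n => ?_
    rw [one_div]
    congr 1
    rcases Nat.eq_zero_or_pos n with rfl | hn
    · simp
    · have hn0 : (0 : ℝ) < n := by exact_mod_cast hn
      rw [show (3 / 2 : ℝ) = 1 + 1 / 2 by norm_num, Real.rpow_add hn0, Real.rpow_one,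
        Real.sqrt_eq_rpow]
  have hTR1 : T 1 - R 1 = 0 := by
    simp [hT, hR]
  obtain ⟨M, hM⟩ : ∃ M : ℝ, ∀ n : ℕ, 1 ≤ n → |T n - R n| ≤ M := by
    refine ⟨∑' n : ℕ, 3 * K * (1 / ((n : ℝ) * Real.sqrt n)), fun n hn => ?_⟩
    have h1 : |T n - R n| ≤ ∑ j ∈ Finset.range n, 3 * K * (1 / ((j : ℝ) * Real.sqrt j)) := by
      induction n, hn using Nat.le_induction with
      | base => rw [hTR1]; simp
      | succ m hm ih =>
        rw [Finset.sum_range_succ]
        have h2 := hinc m hm
        have h3 : T (m + 1) - R (m + 1) = (T m - R m) + ((T (m + 1) - R (m + 1)) - (T m - R m)) := by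
          ring
        rw [h3]
        exact (abs_add_le _ _).trans (add_le_add ih h2)
    exact h1.trans (hsum.sum_le_tsum _ fun j _ => by positivity)
  have hlog : Tendsto (fun n : ℕ => Real.log (n : ℝ)) atTop atTop :=
    Real.tendsto_log_atTop.comp tendsto_natCast_atTop_atTop
  have hRlim : Tendsto (fun n : ℕ => R n / Real.log n) atTop (𝓝 h) := by
    refine (hlim.comp hlog).congr' ?_
    filter_upwards [eventually_ge_atTop 2] with n hn
    have hn0 : (0 : ℝ) < n := by exact_mod_cast (by omega : 0 < n)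
    have hl : 0 < Real.log n := Real.log_pos (by exact_mod_cast (by omega : 1 < n))
    simp only [Function.comp, Real.exp_log hn0, Nat.floor_natCast, hR]
    rw [Finset.sum_div]
    refine Finset.sum_congr rfl fun k _ => ?_
    field_simp
  have hdiff : Tendsto (fun n : ℕ => (T n - R n) / Real.log n) atTop (𝓝 0) := by
    have h1 : Tendsto (fun n : ℕ => M / Real.log n) atTop (𝓝 0) := tendsto_const_nhds.div_atTop hlog
    refine squeeze_zero_norm' ?_ h1
    filter_upwards [eventually_ge_atTop 2] with n hn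
    have hl : 0 < Real.log n := Real.log_pos (by exact_mod_cast (by omega : 1 < n))
    rw [norm_div, Real.norm_eq_abs, Real.norm_of_nonneg hl.le]
    exact div_le_div_of_nonneg_right (hM n (by omega)) hl.le
  have := hRlim.add hdiff
  rw [add_zero] at this
  refine this.congr fun n => ?_
  ring

end Pool.Agent.H41R3.BSDAvg
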