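import Pool.Agent.H261R3.LN.LStmts

/-! Project LM, task CovLip (helper41). -/

set_option autoImplicit false

namespace Pool.Agent.H41R3.LMCovLip

open Pool.Agent.H261R3.LN

theorem taskCovLip : TaskCovLip := by
  intro E S _ _ _ π hπ
  obtain ⟨ε, hε, hiso⟩ := hπ.isom
  have hcont : Continuous π := hπ.covering.continuous
  have hcomp : IsCompact (Set.univ : Set S) := by
    have h := isCompact_range hcont
    rwa [hπ.surj.range_eq] at h
  have hb : Bornology.IsBounded (Set.univ : Set S) := hcomp.isBounded
  set D := Metric.diam (Set.univ : Set S) with hD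
  have hD0 : 0 ≤ D := Metric.diam_nonneg
  refine ⟨max 1 (D / ε), le_max_left _ _, fun a b => ?_⟩
  by_cases h : dist a b < ε
  · rw [hiso a b h]
    calc dist a b = 1 * dist a b := (one_mul _).symm
      _ ≤ max 1 (D / ε) * dist a b := mul_le_mul_of_nonneg_right (le_max_left _ _) dist_nonneg
  · push Not at h
    calc dist (π a) (π b) ≤ D := Metric.dist_le_diam_of_mem hb (Set.mem_univ _) (Set.mem_univ _)
      _ = D / ε * ε := by field_simp
      _ ≤ D / ε * dist a b := mul_le_mul_of_nonneg_left h (by positivity)
      _ ≤ max 1 (D / ε) * dist a b := mul_le_mul_of_nonneg_right (le_max_right _ _) dist_nonneg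

end Pool.Agent.H41R3.LMCovLip
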