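import Pool.Agent.Helper187.CC.Stmts

/-! Project H187-CYCLE, task TaskInv (helper41). -/

set_option autoImplicit false
open Finset

namespace Pool.Agent.H41R3.CCInv

open H187CC

variable {A : Type}

lemma phi_one (t : ℝ) (h0 : 0 < t) (h1 : t < 1) (a : A) : (1 - t) * phi t [a] = 1 := by
  have h := phi_rec t h0 h1 [a] trivial
  rw [del_cons] at h
  simpa using h

lemma el_apply (f : List A → ℝ) (x : ℕ → A) (a b : ℕ) :
    el f x a b = if a ≤ b then f (seg x a (b + 1 - a)) else 0 := rfl

lemma seg_one (x : ℕ → A) (a : ℕ) : seg x a 1 = [x a] := rfl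

lemma psi_diag (t : ℝ) (h0 : 0 < t) (h1 : t < 1) (x : ℕ → A) (a : ℕ) : el (psi t) x a a = 1 := by
  rw [el_apply, if_pos le_rfl, Nat.add_sub_cancel_left, seg_one, psi]
  simpa using phi_one t h0 h1 (x a)

lemma Delta_diag (t : ℝ) (x : ℕ → A) (a : ℕ) : el (Delta t) x a a = 1 := by
  rw [el_apply, if_pos le_rfl, Nat.add_sub_cancel_left, seg_one]
  simp [Delta]

lemma psi_eq (t : ℝ) (x : ℕ → A) :
    el (psi t) x = el (phi t) x - el (fun w => t ^ w.length * phi t w) x := by
  ext a b hab
  rw [IncidenceAlgebra.sub_apply, el_apply, el_apply, el_apply, if_pos hab, if_pos hab, if_pos hab]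
  unfold psi
  ring

theorem taskInv : TaskSC → TaskN3 → TaskP1 → TaskP1t → TaskGen → TaskInv := by
  intro hSC hN3 hP1 hP1t hGen A t h0 h1 x
  have hmul : el (psi t) x * el (Delta t) x = 1 := by
    ext a b hab
    rcases eq_or_lt_of_le hab with rfl | hlt
    · rw [IncidenceAlgebra.mul_apply, Finset.Icc_self, Finset.sum_singleton, psi_diag t h0 h1,
        Delta_diag, IncidenceAlgebra.one_apply]
      simp
    · rw [psi_eq, sub_mul, IncidenceAlgebra.sub_apply, hP1 hN3 A t h0 h1 x a b hlt,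
        hP1t hSC hN3 A t h0 h1 x a b hlt, sub_self, IncidenceAlgebra.one_apply, if_neg hlt.ne]
  obtain ⟨g, hg1, hg2⟩ := hGen (el (psi t) x) (psi_diag t h0 h1 x)
  have hg : el (Delta t) x = g := by
    calc el (Delta t) x = (g * el (psi t) x) * el (Delta t) x := by rw [hg2, one_mul]
      _ = g * (el (psi t) x * el (Delta t) x) := mul_assoc _ _ _
      _ = g := by rw [hmul, mul_one]
  exact ⟨hmul, by rw [hg]; exact hg2⟩

end Pool.Agent.H41R3.CCInv
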