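import Pool.Agent.H375R3.FP.Stmts

/-! Project H375-FP, task PHI (helper41): the one-set inequality. -/

set_option autoImplicit false

namespace Pool.Agent.H41R3.FPPhi

lemma exp_bound {t : ℝ} (h0 : 0 ≤ t) (h1 : t ≤ 1 / 2) : Real.exp (-(7 / 5 * t)) ≤ 1 - t := by
  have hc := convexOn_exp.2 (Set.mem_univ (0 : ℝ)) (Set.mem_univ (-(7 / 10) : ℝ))
    (show (0 : ℝ) ≤ 1 - 2 * t by linarith) (show (0 : ℝ) ≤ 2 * t by linarith) (by ring)
  have e1 : (1 - 2 * t) • (0 : ℝ) + (2 * t) • (-(7 / 10) : ℝ) = -(7 / 5 * t) := by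
    simp only [smul_eq_mul]; ring
  rw [e1] at hc
  have h2 : Real.exp (-(7 / 10)) ≤ 1 / 2 := by
    have h3 : Real.exp (-(7 / 10)) ≤ Real.exp (-Real.log 2) := by
      apply Real.exp_le_exp.mpr
      have := Real.log_two_lt_d9
      linarith
    rw [Real.exp_neg (Real.log 2), Real.exp_log (by norm_num)] at h3
    linarith
  simp only [smul_eq_mul, Real.exp_zero] at hc
  nlinarith

/-- weighted AM-GM -/
lemma amgm (w : ℕ) (hw : 1 ≤ w) (y : ℝ) (hy : 0 ≤ y) :
    7 / 5 * ((w : ℝ) + 1) * y ≤ 2 * w + y ^ (w + 1) := by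
  have hw0 : w ≠ 0 := by omega
  obtain ⟨c, hc0, hc⟩ : ∃ c : ℝ, 0 < c ∧ c ^ w = 7 / 5 :=
    ⟨(7 / 5 : ℝ) ^ ((w : ℝ)⁻¹), by positivity, Real.rpow_inv_natCast_pow (by norm_num) hw0⟩
  have hc1 : c ≤ 7 / 5 := by
    by_contra h
    push Not at h
    have := le_self_pow₀ (show (1 : ℝ) ≤ c by linarith) hw0
    linarith
  have hb := one_add_mul_le_pow (show (-2 : ℝ) ≤ y / c - 1 by
    have : 0 ≤ y / c := by positivity
    linarith) (w + 1)
  have e1 : 1 + (y / c - 1) = y / c := by ring
  rw [e1, div_pow] at hb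
  have hcp : 0 < c ^ (w + 1) := by positivity
  rw [le_div_iff₀ hcp] at hb
  have e2 : (1 + ((w + 1 : ℕ) : ℝ) * (y / c - 1)) * c ^ (w + 1) =
      ((w : ℝ) + 1) * y * c ^ w - w * (c ^ w * c) := by
    push_cast
    rw [pow_succ]
    field_simp
    ring
  rw [e2, hc] at hb
  have hwr : (0 : ℝ) ≤ w := Nat.cast_nonneg w
  nlinarith

lemma eight_pow (w : ℕ) (hw : 1 ≤ w) : 2 * ((w : ℝ) + 1) ^ 2 ≤ 8 ^ w := by
  induction w, hw using Nat.le_induction with
  | base => norm_num
  | succ n hn ih =>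
    have h8 : (8 : ℝ) ^ (n + 1) = 8 * 8 ^ n := pow_succ' 8 n
    rw [h8]
    push_cast
    have : (1 : ℝ) ≤ n := by exact_mod_cast hn
    nlinarith

theorem phi : H375.FP.TaskPhi := by
  intro C D t x w r hC hCD hD hw hr ht ht1 hx hx1 hs
  have hwr : (1 : ℝ) ≤ w := by exact_mod_cast hw
  have hC0 : 0 < C := by linarith
  have hD0 : 0 < D := by linarith
  have hxw : 0 < x ^ w := by positivity
  set s := t ^ (w + 1) / x ^ w with hsdef
  have hs0 : 0 < s := by positivity
  have hs1 : s ≤ 1 := (div_le_one hxw).mpr hs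
  have hxC0 : 0 < x / C := by positivity
  have hxC1 : x / C ≤ 1 := (div_le_one hC0).mpr (by linarith)
  have hr0 : (0 : ℝ) ≤ r := Nat.cast_nonneg r
  rcases le_or_gt t (1 / 2) with h | h
  · have hkey : 7 / 5 * ((w : ℝ) + 1) * t ≤ w * (x / C) + r * s := by
      have ha := amgm w hw (D * t / x) (by positivity)
      have h1 : 2 * (w : ℝ) * x / D ≤ w * (x / C) := by
        rw [div_le_iff₀ hD0]
        have : (w : ℝ) * (x / C) * D = w * x * (D / C) := by ring
        rw [this]
        have h2 : 2 ≤ D / C := by rw [le_div_iff₀ hC0]; exact hCD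
        have h3 : 0 ≤ (w : ℝ) * x := by positivity
        nlinarith
      have h2 : D ^ w * s ≤ r * s := by gcongr
      have h3 : D ^ w * s = (D * t / x) ^ (w + 1) * (x / D) := by
        rw [hsdef, div_pow, mul_pow]
        field_simp
        ring
      have h4 : (7 / 5 * ((w : ℝ) + 1) * (D * t / x)) * (x / D) ≤
          (2 * w + (D * t / x) ^ (w + 1)) * (x / D) := by gcongr
      have h5 : (7 / 5 * ((w : ℝ) + 1) * (D * t / x)) * (x / D) = 7 / 5 * ((w : ℝ) + 1) * t := by
        field_simp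
      have h6 : (2 * w + (D * t / x) ^ (w + 1)) * (x / D) =
          2 * (w : ℝ) * x / D + (D * t / x) ^ (w + 1) * (x / D) := by ring
      rw [h5, h6] at h4
      linarith
    have e1 : (1 - x / C) ^ w ≤ Real.exp (-(w * (x / C))) := by
      calc (1 - x / C) ^ w ≤ (Real.exp (-(x / C))) ^ w :=
            pow_le_pow_left₀ (by linarith) (Real.one_sub_le_exp_neg _) _
        _ = Real.exp (-(w * (x / C))) := by
            rw [← Real.exp_nat_mul]
            congr 1
            ring
    have e2 : (1 - s) ^ r ≤ Real.exp (-(r * s)) := by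
      calc (1 - s) ^ r ≤ (Real.exp (-s)) ^ r :=
            pow_le_pow_left₀ (by linarith) (Real.one_sub_le_exp_neg _) _
        _ = Real.exp (-(r * s)) := by
            rw [← Real.exp_nat_mul]
            congr 1
            ring
    calc (1 - x / C) ^ w * (1 - s) ^ r
        ≤ Real.exp (-(w * (x / C))) * Real.exp (-(r * s)) :=
          mul_le_mul e1 e2 (pow_nonneg (by linarith) _) (Real.exp_pos _).le
      _ = Real.exp (-(w * (x / C) + r * s)) := by
          rw [← Real.exp_add]
          congr 1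
          ring
      _ ≤ Real.exp (-(7 / 5 * ((w : ℝ) + 1) * t)) := Real.exp_le_exp.mpr (by linarith)
      _ = (Real.exp (-(7 / 5 * t))) ^ (w + 1) := by
          rw [← Real.exp_nat_mul]
          congr 1
          push_cast
          ring
      _ ≤ (1 - t) ^ (w + 1) := pow_le_pow_left₀ (Real.exp_pos _).le (exp_bound ht.le h) _
  · set n := w + 1 with hn
    have hnr : (n : ℝ) = w + 1 := by rw [hn]; push_cast; ring
    set p := 1 - t ^ n with hp
    have htn : 0 < t ^ n := by positivity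
    have htn1 : t ^ n < 1 := pow_lt_one₀ ht.le ht1 (by omega)
    have hp0 : 0 ≤ p := by linarith
    have hsp : 1 - s ≤ p := by
      have : t ^ n ≤ s := by
        rw [hsdef, le_div_iff₀ hxw]
        exact mul_le_of_le_one_right htn.le (pow_le_one₀ hx.le hx1)
      linarith
    -- p ≤ n u
    have hp1 : p ≤ n * (1 - t) := by
      have hb := one_add_mul_le_pow (show (-2 : ℝ) ≤ -(1 - t) by linarith) n
      have e : (1 + -(1 - t)) = t := by ring
      rw [e] at hb
      linarith
    have hp2 : p ≤ Real.exp (-((1 / 2 : ℝ) ^ n)) := by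
      have h1 : (1 / 2 : ℝ) ^ n ≤ t ^ n := pow_le_pow_left₀ (by norm_num) h.le n
      have h2 := Real.one_sub_le_exp_neg ((1 / 2 : ℝ) ^ n)
      linarith
    have h16 : (16 : ℝ) ^ w ≤ r := (pow_le_pow_left₀ (by norm_num) hD w).trans hr
    have h8 := eight_pow w hw
    have hrn : n ≤ r := by
      have h1 : (n : ℝ) ≤ r := by
        have h2 : (8 : ℝ) ^ w ≤ 16 ^ w := pow_le_pow_left₀ (by norm_num) (by norm_num) w
        rw [hnr]
        nlinarith
      exact_mod_cast h1
    have hexp : (w : ℝ) * (w + 1) ≤ ((r - n : ℕ) : ℝ) * (1 / 2 : ℝ) ^ n := by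
      rw [Nat.cast_sub hrn, sub_mul]
      have h1 : ((w : ℝ) + 1) ^ 2 ≤ r * (1 / 2 : ℝ) ^ n := by
        have h2 : (16 : ℝ) ^ w * (1 / 2 : ℝ) ^ n = 8 ^ w / 2 := by
          rw [hn, pow_succ, ← mul_assoc, ← mul_pow]
          norm_num
          ring
        have h3 : (16 : ℝ) ^ w * (1 / 2 : ℝ) ^ n ≤ r * (1 / 2 : ℝ) ^ n := by gcongr
        linarith
      have h4 : (n : ℝ) * (1 / 2 : ℝ) ^ n ≤ n := by
        have h5 : (1 / 2 : ℝ) ^ n ≤ 1 := pow_le_one₀ (by norm_num) (by norm_num)
        have h6 : (0 : ℝ) ≤ n := Nat.cast_nonneg n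
        nlinarith
      rw [hnr] at h4
      rw [hnr]
      nlinarith
    have hu : 0 < 1 - t := by linarith
    have hA : p ^ (r - n) ≤ Real.exp (-((w : ℝ) * (w + 1))) := by
      calc p ^ (r - n) ≤ (Real.exp (-((1 / 2 : ℝ) ^ n))) ^ (r - n) := pow_le_pow_left₀ hp0 hp2 _
        _ = Real.exp (-(((r - n : ℕ) : ℝ) * (1 / 2 : ℝ) ^ n)) := by
            rw [← Real.exp_nat_mul]
            congr 1
            ring
        _ ≤ _ := Real.exp_le_exp.mpr (by linarith)
    have hB : p ^ n ≤ Real.exp ((w : ℝ) * (w + 1)) * (1 - t) ^ n := by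
      calc p ^ n ≤ (n * (1 - t)) ^ n := pow_le_pow_left₀ hp0 hp1 _
        _ ≤ (Real.exp w * (1 - t)) ^ n := by
            have : (n : ℝ) ≤ Real.exp w := by
              rw [hnr]; exact Real.add_one_le_exp _
            gcongr
        _ = Real.exp ((w : ℝ) * (w + 1)) * (1 - t) ^ n := by
            rw [mul_pow, ← Real.exp_nat_mul, hnr]
            congr 2
            ring
    calc (1 - x / C) ^ w * (1 - s) ^ r ≤ 1 * p ^ r :=
          mul_le_mul (pow_le_one₀ (by linarith) (by linarith))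
            (pow_le_pow_left₀ (by linarith) hsp r) (pow_nonneg (by linarith) _) zero_le_one
      _ = p ^ n * p ^ (r - n) := by
          rw [one_mul, ← pow_add]
          congr 1
          omega
      _ ≤ (Real.exp ((w : ℝ) * (w + 1)) * (1 - t) ^ n) * Real.exp (-((w : ℝ) * (w + 1))) :=
          mul_le_mul hB hA (pow_nonneg hp0 _) (by positivity)
      _ = (1 - t) ^ n := by
          rw [mul_comm, ← mul_assoc, ← Real.exp_add]
          simp

end Pool.Agent.H41R3.FPPhi
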