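import Pool.Agent.H695R3.PP.Stmts

/-! Project H695-LP, task TaskApprox (helper41): approximate eigenvectors give eigenvalues. -/

set_option autoImplicit false

open scoped BigOperators
open Matrix

namespace Pool.Agent.H41R3.PPApprox

open Pool.Agent.H695R3.PP

variable (V : ℤ → ℝ) (a b : ℤ)

/-- index type of the box -/
abbrev Idx : Type := ↥(Finset.Icc a b)

/-- extension by zero -/
noncomputable def ext (u : Idx a b → ℝ) (n : ℤ) : ℝ :=
  if h : n ∈ Finset.Icc a b then u ⟨n, h⟩ else 0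

/-- matrix of the operator on the box -/
noncomputable def M : Matrix (Idx a b) (Idx a b) ℝ := fun i j =>
  (if (j : ℤ) = i + 1 then 1 else 0) + (if (j : ℤ) = i - 1 then 1 else 0) +
    (if i = j then V i else 0)

lemma M_symm : (M V a b).IsHermitian := by
  ext i j
  simp only [Matrix.conjTranspose_apply, M, star_trivial]
  have h1 : ((i : ℤ) = j + 1) ↔ ((j : ℤ) = i - 1) := by omega
  have h2 : ((i : ℤ) = j - 1) ↔ ((j : ℤ) = i + 1) := by omega
  by_cases h : i = j
  · subst h; rfl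
  · have h' : ¬ j = i := fun e => h e.symm
    simp only [h1, h2, h, h', if_false]
    ring

lemma sum_shift (u : Idx a b → ℝ) (m : ℤ) :
    ∑ j : Idx a b, (if (j : ℤ) = m then (1 : ℝ) else 0) * u j = ext a b u m := by
  unfold ext
  by_cases h : m ∈ Finset.Icc a b
  · rw [dif_pos h, Finset.sum_eq_single (⟨m, h⟩ : Idx a b)]
    · simp
    · intro j _ hj
      have : (j : ℤ) ≠ m := fun e => hj (Subtype.ext e)
      simp [this]
    · intro h'
      exact absurd (Finset.mem_univ _) h'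
  · rw [dif_neg h]
    refine Finset.sum_eq_zero fun j _ => ?_
    have : (j : ℤ) ≠ m := fun e => h (e ▸ j.2)
    simp [this]

lemma M_mulVec (u : Idx a b → ℝ) (i : Idx a b) :
    (M V a b *ᵥ u) i = ext a b u (i + 1) + ext a b u (i - 1) + V i * u i := by
  simp only [Matrix.mulVec, dotProduct, M, add_mul, Finset.sum_add_distrib]
  rw [sum_shift, sum_shift]
  congr 1
  simp

lemma ext_of_mem (u : Idx a b → ℝ) (i : Idx a b) : ext a b u i = u i := by
  unfold ext
  rw [dif_pos i.2]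

lemma ext_of_not (u : Idx a b → ℝ) (n : ℤ) (h : n < a ∨ b < n) : ext a b u n = 0 := by
  unfold ext
  rw [dif_neg]
  rw [Finset.mem_Icc]
  omega

lemma ext_restrict (f : ℤ → ℝ) (hf : ∀ n, n < a ∨ b < n → f n = 0) (n : ℤ) :
    ext a b (fun i : Idx a b => f i) n = f n := by
  unfold ext
  by_cases h : n ∈ Finset.Icc a b
  · rw [dif_pos h]
  · rw [dif_neg h]
    rw [Finset.mem_Icc] at h
    exact (hf n (by omega)).symm

theorem taskApprox : TaskApprox := by
  intro V a b E δ f hδ hf hpos hle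
  have hM := M_symm V a b
  set φ := hM.eigenvectorBasis with hφ
  set F : EuclideanSpace ℝ (Idx a b) := WithLp.toLp 2 (fun i : Idx a b => f i) with hF
  set g : Idx a b → ℝ := fun i => f (i + 1) + f (i - 1) + V i * f i - E * f i with hg
  set G : EuclideanSpace ℝ (Idx a b) := WithLp.toLp 2 g with hG
  have hFn : ‖F‖ ^ 2 = nsq a b f := by
    rw [EuclideanSpace.real_norm_sq_eq, nsq, ← Finset.sum_coe_sort (Finset.Icc a b)]
  have hGn : ‖G‖ ^ 2 = ∑ n ∈ Finset.Icc a b, (f (n + 1) + f (n - 1) + V n * f n - E * f n) ^ 2 := by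
    rw [EuclideanSpace.real_norm_sq_eq, ← Finset.sum_coe_sort (Finset.Icc a b)]
  -- coefficients
  have hcoef : ∀ i, inner ℝ (φ i) G = (hM.eigenvalues i - E) * inner ℝ (φ i) F := by
    intro i
    have hg' : g = (M V a b *ᵥ (fun i : Idx a b => f i)) - E • (fun i : Idx a b => f i) := by
      funext j
      rw [Pi.sub_apply, M_mulVec, ext_restrict a b f hf, ext_restrict a b f hf]
      simp [hg]
    have e1 : inner ℝ (φ i) G = (φ i : Idx a b → ℝ) ⬝ᵥ g := by
      rw [EuclideanSpace.inner_eq_star_dotProduct]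
      simp [hG, dotProduct_comm]
    have e2 : inner ℝ (φ i) F = (φ i : Idx a b → ℝ) ⬝ᵥ (fun i : Idx a b => f i) := by
      rw [EuclideanSpace.inner_eq_star_dotProduct]
      simp [hF, dotProduct_comm]
    have hT : (M V a b)ᵀ = M V a b := by
      have := hM.eq
      rwa [Matrix.conjTranspose_eq_transpose_of_trivial] at this
    rw [e1, e2, hg', dotProduct_sub, dotProduct_smul, Matrix.dotProduct_mulVec,
      ← Matrix.mulVec_transpose, hT, hM.mulVec_eigenvectorBasis i, smul_dotProduct]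
    simp only [smul_eq_mul]
    ring
  have hex : ∃ i, |hM.eigenvalues i - E| ≤ δ := by
    by_contra hcon
    push Not at hcon
    have s1 := φ.sum_sq_norm_inner_right F
    have s2 := φ.sum_sq_norm_inner_right G
    rw [hFn] at s1
    rw [hGn] at s2
    rw [← s2, ← s1] at hle
    have hterm : ∀ i, δ ^ 2 * ‖inner ℝ (φ i) F‖ ^ 2 ≤ ‖inner ℝ (φ i) G‖ ^ 2 := by
      intro i
      rw [hcoef i, norm_mul, mul_pow, Real.norm_eq_abs (hM.eigenvalues i - E)]
      have := hcon i
      gcongr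
    have heq : ∀ i, ‖inner ℝ (φ i) G‖ ^ 2 = δ ^ 2 * ‖inner ℝ (φ i) F‖ ^ 2 := by
      rw [Finset.mul_sum] at hle
      have h1 : ∑ i, δ ^ 2 * ‖inner ℝ (φ i) F‖ ^ 2 = ∑ i, ‖inner ℝ (φ i) G‖ ^ 2 :=
        le_antisymm (Finset.sum_le_sum fun i _ => hterm i) hle
      have h2 := (Finset.sum_eq_sum_iff_of_le (fun i _ => hterm i)).mp h1
      intro i
      exact (h2 i (Finset.mem_univ i)).symm
    have hz : ∀ i, ‖inner ℝ (φ i) F‖ ^ 2 = 0 := by
      intro i
      have h1 := heq i
      rw [hcoef i, norm_mul, mul_pow, Real.norm_eq_abs (hM.eigenvalues i - E)] at h1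
      have h2 : δ ^ 2 < |hM.eigenvalues i - E| ^ 2 := by
        have := hcon i
        gcongr
      have h3 : 0 ≤ ‖inner ℝ (φ i) F‖ ^ 2 := by positivity
      by_contra h4
      have h5 : 0 < ‖inner ℝ (φ i) F‖ ^ 2 := lt_of_le_of_ne h3 (Ne.symm h4)
      nlinarith
    rw [Finset.sum_congr rfl fun i _ => hz i, Finset.sum_const_zero] at s1
    linarith
  obtain ⟨i, hi⟩ := hex
  refine ⟨hM.eigenvalues i, ext a b (φ i : Idx a b → ℝ), ⟨fun n hn => ext_of_not a b _ n hn, ?_, ?_⟩, hi⟩
  · have h1 : ‖φ i‖ ^ 2 = 1 := by rw [φ.norm_eq_one, one_pow]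
    rw [EuclideanSpace.real_norm_sq_eq] at h1
    rw [nsq, ← Finset.sum_coe_sort (Finset.Icc a b), ← h1]
    refine Finset.sum_congr rfl fun j _ => ?_
    rw [ext_of_mem]
  · intro n h1 h2
    have hn : n ∈ Finset.Icc a b := Finset.mem_Icc.mpr ⟨h1, h2⟩
    have h3 := congrFun (hM.mulVec_eigenvectorBasis i) (⟨n, hn⟩ : Idx a b)
    rw [M_mulVec] at h3
    have h4 := ext_of_mem a b (φ i : Idx a b → ℝ) ⟨n, hn⟩
    simp only [Pi.smul_apply, smul_eq_mul] at h3 h4
    rw [h4]
    exact h3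

end Pool.Agent.H41R3.PPApprox
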